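import Mathlib

set_option autoImplicit false

namespace Pool.Agent.Results.MP_ea093d_al.InfiniteLattice

/-- Semigroups, bundled. -/
structure Sgrp : Type 1 where
  carrier : Type
  [str : Semigroup carrier]

attribute [instance] Sgrp.str

/-- Nonempty words over a countably infinite alphabet. -/
abbrev Word : Type := FreeSemigroup ℕ

/-- The value of a word under an assignment of its letters. -/
def value (S : Sgrp) (f : ℕ → S.carrier) (w : Word) : S.carrier := FreeSemigroup.lift f w

/-- `S` satisfies the identical inclusion `u ∈ V`: for every assignment, the value of `u` is the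
value of at least one word of `V`. (Every set of words is finite or countably infinite.) -/
def Sat (S : Sgrp) (u : Word) (V : Set Word) : Prop :=
  ∀ f : ℕ → S.carrier, ∃ v ∈ V, value S f u = value S f v

/-- Inclusive varieties: classes of all semigroups satisfying a given set of identical
inclusions. -/
def IsInclusiveVariety (𝒱 : Set Sgrp) : Prop :=
  ∃ Φ : Set (Word × Set Word), 𝒱 = {S | ∀ i ∈ Φ, Sat S i.1 i.2}

/-- The inclusive variety generated by `S`. -/
def Generated (S : Sgrp) : Set Sgrp := {T | ∀ (u : Word) (V : Set Word), Sat S u V → Sat T u V}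

/-- The set of inclusive subvarieties of the inclusive variety generated by `S`. -/
def Subvarieties (S : Sgrp) : Set (Set Sgrp) := {𝒱 | IsInclusiveVariety 𝒱 ∧ 𝒱 ⊆ Generated S}

/-- `S` is a nilsemigroup: it has a zero and every element has a power equal to the zero
(powers are written `g^(n+1) = ` value of the word `x x ... x`). -/
def IsNil (S : Sgrp) : Prop :=
  ∃ z : S.carrier, (∀ x, z * x = z ∧ x * z = z) ∧
    ∀ x : S.carrier, ∃ n : ℕ, value S (fun _ => x) ⟨0, List.replicate n 0⟩ = z

theorem generated_isInclusiveVariety (S : Sgrp) : IsInclusiveVariety (Generated S) := by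
  refine ⟨{i | Sat S i.1 i.2}, ?_⟩
  ext T
  constructor
  · intro h i hi
    exact h i.1 i.2 hi
  · intro h u V hu
    exact h (u, V) hu

/-- The semigroups used: a zero `z`, an idempotent `e`, an element `c` and elements `vx a`,
with `(vx a)(vx b) = c` if `N a b`, `e e = e`, and all other products `z`. -/
inductive TT (A : Type) (N : A → A → Prop) : Type
  | vx (a : A) : TT A N
  | c : TT A N
  | e : TT A N
  | z : TT A N

namespace TT
variable {A : Type} {N : A → A → Prop}

open Classical in
/-- multiplication -/
noncomputable def mul : TT A N → TT A N → TT A N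
  | TT.vx a, TT.vx b => if N a b then TT.c else TT.z
  | TT.e, TT.e => TT.e
  | _, _ => TT.z

noncomputable instance : Mul (TT A N) := ⟨mul⟩

theorem vx_vx (a b : A) [Decidable (N a b)] :
    (TT.vx a : TT A N) * TT.vx b = if N a b then TT.c else TT.z := by
  show mul _ _ = _
  simp only [mul]
  by_cases h : N a b <;> simp [h]
@[simp] theorem e_e : (TT.e : TT A N) * TT.e = TT.e := rfl
@[simp] theorem z_mul (x : TT A N) : TT.z * x = TT.z := by cases x <;> rfl
@[simp] theorem mul_z (x : TT A N) : x * TT.z = TT.z := by cases x <;> rfl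
@[simp] theorem c_mul (x : TT A N) : TT.c * x = TT.z := by cases x <;> rfl
@[simp] theorem mul_c (x : TT A N) : x * TT.c = TT.z := by cases x <;> rfl
@[simp] theorem vx_e (a : A) : (TT.vx a : TT A N) * TT.e = TT.z := rfl
@[simp] theorem e_vx (a : A) : (TT.e : TT A N) * TT.vx a = TT.z := rfl

theorem mul_cases (x y : TT A N) : x * y = TT.c ∨ x * y = TT.e ∨ x * y = TT.z := by
  classical
  cases x <;> cases y <;> simp [vx_vx]
  rename_i a b
  by_cases h : N a b <;> simp [h]

noncomputable instance : Semigroup (TT A N) where
  mul_assoc x y w := by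
    classical
    cases x <;> cases y <;> cases w <;> simp [vx_vx] <;> split_ifs <;> simp

/-- products of an element with `c`, `e` or `z` land in `{e, z}` -/
theorem three (x y w : TT A N) : x * y * w = TT.e ∨ x * y * w = TT.z := by
  rcases mul_cases x y with h | h | h <;> rw [h]
  · simp
  · cases w <;> simp
  · simp

theorem ez_mul (x w : TT A N) (h : x = TT.e ∨ x = TT.z) : x * w = TT.e ∨ x * w = TT.z := by
  rcases h with rfl | rfl
  · cases w <;> simp
  · simp

end TT

/-- bundled -/
@[reducible] noncomputable def T (A : Type) (N : A → A → Prop) : Sgrp := ⟨TT A N⟩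

section value
variable {A : Type} {N : A → A → Prop}

theorem value_one (S : Sgrp) (f : ℕ → S.carrier) (a : ℕ) : value S f ⟨a, []⟩ = f a := rfl
theorem value_two (S : Sgrp) (f : ℕ → S.carrier) (a b : ℕ) :
    value S f ⟨a, [b]⟩ = f a * f b := rfl

theorem foldl_ez (f : ℕ → TT A N) (l : List ℕ) (x : TT A N) (hx : x = TT.e ∨ x = TT.z) :
    l.foldl (fun a b => a * f b) x = TT.e ∨ l.foldl (fun a b => a * f b) x = TT.z := by
  induction l generalizing x with
  | nil => exact hx
  | cons b l ih =>
    rw [List.foldl_cons]
    exact ih _ (TT.ez_mul _ _ hx)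

theorem value_three (f : ℕ → TT A N) (a b c : ℕ) (l : List ℕ) :
    value (T A N) f ⟨a, b :: c :: l⟩ = TT.e ∨ value (T A N) f ⟨a, b :: c :: l⟩ = TT.z :=
  foldl_ez f l (f a * f b * f c) (TT.three _ _ _)

/-- homomorphisms commute with evaluation -/
theorem value_hom (S S' : Sgrp) (h : S.carrier → S'.carrier)
    (hh : ∀ x y, h (x * y) = h x * h y) (f : ℕ → S.carrier) (w : Word) :
    h (value S f w) = value S' (fun i => h (f i)) w := by
  obtain ⟨a, l⟩ := w
  show h (l.foldl (fun a b => a * f b) (f a)) = l.foldl (fun a b => a * h (f b)) (h (f a))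
  generalize f a = x
  induction l generalizing x with
  | nil => rfl
  | cons b l ih => rw [List.foldl_cons, List.foldl_cons, ih, hh]

end value

/-- the digraph on three vertices with a loop at `0` and an arrow from `1` to `2` -/
def N3 (i j : Fin 3) : Prop := (i = 0 ∧ j = 0) ∨ (i = 1 ∧ j = 2)

instance (i j : Fin 3) : Decidable (N3 i j) := by unfold N3; infer_instance

/-- the generating semigroup, with six elements -/
@[reducible] noncomputable def S6 : Sgrp := T (Fin 3) N3

/-- keeps `e`, sends everything else to `z` -/
def h1 {A : Type} {N : A → A → Prop} : TT A N → TT (Fin 3) N3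
  | TT.e => TT.e
  | _ => TT.z

theorem h1_hom {A : Type} {N : A → A → Prop} (x y : TT A N) : h1 (x * y) = h1 x * h1 y := by
  classical
  cases x <;> cases y <;> simp [h1, TT.vx_vx]
  split_ifs <;> rfl

/-- sends all `vx a` to `vx 0` -/
def h2 {A : Type} {N : A → A → Prop} : TT A N → TT (Fin 3) N3
  | TT.vx _ => TT.vx 0
  | TT.c => TT.c
  | TT.e => TT.e
  | TT.z => TT.z

theorem h1_h2 {A : Type} {N : A → A → Prop} (x : TT A N) : h1 (h2 x) = h1 x := by
  cases x <;> rfl

theorem h2_z {A : Type} {N : A → A → Prop} (x : TT A N) : h2 x = TT.z ↔ x = TT.z := by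
  cases x <;> simp [h2]

theorem at0_at0 : (TT.vx 0 : TT (Fin 3) N3) * TT.vx 0 = TT.c := by
  rw [TT.vx_vx]; rfl
theorem at1_at2 : (TT.vx 1 : TT (Fin 3) N3) * TT.vx 2 = TT.c := by
  rw [TT.vx_vx]; rfl

theorem mul_eq_c (x y : TT (Fin 3) N3) (h : x * y = TT.c) :
    (x = TT.vx 0 ∧ y = TT.vx 0) ∨ (x = TT.vx 1 ∧ y = TT.vx 2) := by
  cases x with
  | vx a =>
    cases y with
    | vx b =>
      rw [TT.vx_vx] at h
      by_cases hN : N3 a b
      · rcases hN with ⟨rfl, rfl⟩ | ⟨rfl, rfl⟩
        · exact Or.inl ⟨rfl, rfl⟩
        · exact Or.inr ⟨rfl, rfl⟩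
      · rw [if_neg hN] at h; exact absurd h (by simp)
    | c => simp at h
    | e => simp at h
    | z => simp at h
  | c => simp at h
  | e => cases y <;> simp at h
  | z => simp at h

theorem mul_ne_vx (x y : TT (Fin 3) N3) (a : Fin 3) : x * y ≠ TT.vx a := by
  rcases TT.mul_cases x y with h | h | h <;> rw [h] <;> simp

/-- only one-letter words can have value `vx a` -/
theorem value_vx (f : ℕ → TT (Fin 3) N3) (w : Word) (a : Fin 3)
    (h : value S6 f w = TT.vx a) : ∃ x, w = ⟨x, []⟩ ∧ f x = TT.vx a := by
  obtain ⟨x, l⟩ := w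
  cases l with
  | nil => exact ⟨x, rfl, h⟩
  | cons y l =>
    cases l with
    | nil => exact absurd h (mul_ne_vx _ _ _)
    | cons w l =>
      exfalso
      rcases value_three (A := Fin 3) (N := N3) f x y w l with h' | h'
      · have h3 : value S6 f ⟨x, y :: w :: l⟩ = TT.e := h'
        rw [h3] at h; cases h
      · have h3 : value S6 f ⟨x, y :: w :: l⟩ = TT.z := h'
        rw [h3] at h; cases h

/-- words with value `c`, when no letter has value `c` -/
theorem value_c (f : ℕ → TT (Fin 3) N3) (w : Word) (hc : ∀ x, f x ≠ TT.c)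
    (h : value S6 f w = TT.c) : ∃ x y, w = ⟨x, [y]⟩ ∧
      ((f x = TT.vx 0 ∧ f y = TT.vx 0) ∨ (f x = TT.vx 1 ∧ f y = TT.vx 2)) := by
  obtain ⟨x, l⟩ := w
  cases l with
  | nil => exact absurd h (hc x)
  | cons y l =>
    cases l with
    | nil => exact ⟨x, y, rfl, mul_eq_c _ _ h⟩
    | cons w l =>
      exfalso
      rcases value_three (A := Fin 3) (N := N3) f x y w l with h' | h'
      · have h3 : value S6 f ⟨x, y :: w :: l⟩ = TT.e := h'
        rw [h3] at h; cases h
      · have h3 : value S6 f ⟨x, y :: w :: l⟩ = TT.z := h'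
        rw [h3] at h; cases h

/-- Every `T A N` lies in the inclusive variety generated by `S6`. -/
theorem T_mem (A : Type) (N : A → A → Prop) : T A N ∈ Generated S6 := by
  classical
  intro u V hS
  by_contra hT
  unfold Sat at hT
  push Not at hT
  obtain ⟨ψ, hψ⟩ := hT
  -- it suffices to find a bad assignment in S6
  suffices hφ : ∃ φ : ℕ → TT (Fin 3) N3, ∀ v ∈ V, value S6 φ u ≠ value S6 φ v by
    obtain ⟨φ, hφ⟩ := hφ
    obtain ⟨v, hv, he⟩ := hS φ
    exact hφ v hv he
  obtain ⟨a, l⟩ := u
  cases l with
  | nil =>
    refine ⟨fun x => if x = a then TT.vx 0 else TT.z, ?_⟩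
    intro v hv he
    have h0 : value S6 (fun x => if x = a then (TT.vx 0 : TT (Fin 3) N3) else TT.z) ⟨a, []⟩
        = TT.vx 0 := if_pos rfl
    rw [h0] at he
    obtain ⟨x, hx, hx'⟩ := value_vx _ v 0 he.symm
    by_cases hxa : x = a
    · subst hxa; exact hψ v hv (by rw [hx])
    · rw [if_neg hxa] at hx'; cases hx'
  | cons b l =>
    cases l with
    | nil =>
      by_cases hab : a = b
      · subst hab
        refine ⟨fun x => if x = a then TT.vx 0 else TT.z, ?_⟩
        intro v hv he
        have h0 : value S6 (fun x => if x = a then (TT.vx 0 : TT (Fin 3) N3) else TT.z) ⟨a, [a]⟩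
            = TT.c := by
          show (if a = a then (TT.vx 0 : TT (Fin 3) N3) else TT.z) *
            (if a = a then (TT.vx 0 : TT (Fin 3) N3) else TT.z) = TT.c
          rw [if_pos rfl, at0_at0]
        rw [h0] at he
        obtain ⟨x, y, hxy, hc⟩ := value_c _ v (by
          intro x hx
          by_cases hxa : x = a
          · rw [if_pos hxa] at hx; cases hx
          · rw [if_neg hxa] at hx; cases hx) he.symm
        have hxa : x = a := by
          by_contra hne
          rcases hc with ⟨h, -⟩ | ⟨h, -⟩ <;> rw [if_neg hne] at h <;> cases h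
        have hya : y = a := by
          by_contra hne
          rcases hc with ⟨-, h⟩ | ⟨-, h⟩ <;> rw [if_neg hne] at h <;> cases h
        subst hxa; subst hya
        exact hψ v hv (by rw [hxy])
      · refine ⟨fun x => if x = a then TT.vx 1 else if x = b then TT.vx 2 else TT.z, ?_⟩
        intro v hv he
        have h0 : value S6 (fun x => if x = a then (TT.vx 1 : TT (Fin 3) N3) else
            if x = b then TT.vx 2 else TT.z) ⟨a, [b]⟩ = TT.c := by
          show (if a = a then (TT.vx 1 : TT (Fin 3) N3) else if a = b then TT.vx 2 else TT.z) *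
            (if b = a then (TT.vx 1 : TT (Fin 3) N3) else if b = b then TT.vx 2 else TT.z) = TT.c
          rw [if_pos rfl, if_neg (Ne.symm hab), if_pos rfl, at1_at2]
        rw [h0] at he
        obtain ⟨x, y, hxy, hc⟩ := value_c _ v (by
          intro x hx
          beta_reduce at hx
          split_ifs at hx) he.symm
        beta_reduce at hc
        have hxa : x = a := by
          by_contra hne
          rcases hc with ⟨h, -⟩ | ⟨h, -⟩
          · rw [if_neg hne] at h
            split_ifs at h
            · injection h with h; exact absurd h (by decide)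
          · rw [if_neg hne] at h
            split_ifs at h
            · injection h with h; exact absurd h (by decide)
        have hyb : y = b := by
          by_contra hne
          rcases hc with ⟨-, h⟩ | ⟨-, h⟩
          · rw [if_neg hne] at h
            split_ifs at h
            · injection h with h; exact absurd h (by decide)
          · rw [if_neg hne] at h
            split_ifs at h
            · injection h with h; exact absurd h (by decide)
        subst hxa; subst hyb
        exact hψ v hv (by rw [hxy])
    | cons c l =>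
      rcases value_three (A := A) (N := N) ψ a b c l with hu | hu
      · -- value e
        refine ⟨fun x => h1 (ψ x), ?_⟩
        intro v hv he
        have k1 := value_hom (T A N) S6 h1 h1_hom ψ ⟨a, b :: c :: l⟩
        have k2 := value_hom (T A N) S6 h1 h1_hom ψ v
        rw [hu] at k1
        have k3 : h1 (value (T A N) ψ v) = TT.e := by
          rw [k2, ← he, ← k1]; rfl
        have k4 : value (T A N) ψ v = TT.e := by
          revert k3
          generalize value (T A N) ψ v = w
          intro k3
          change TT A N at w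
          cases w <;> simp [h1] at k3 ⊢
        exact hψ v hv (hu.trans k4.symm)
      · -- value z
        have claim : ∀ (x y w : ℕ) (l : List ℕ),
            value S6 (fun i => h2 (ψ i)) ⟨x, y :: w :: l⟩ = TT.z ↔
              value (T A N) ψ ⟨x, y :: w :: l⟩ = TT.z := by
          intro x y w l
          have k1 := value_hom (T A N) S6 h1 h1_hom ψ ⟨x, y :: w :: l⟩
          have k2 := value_hom S6 S6 h1 h1_hom (fun i => h2 (ψ i)) ⟨x, y :: w :: l⟩
          have k3 : (fun i => h1 (h2 (ψ i))) = fun i => h1 (ψ i) := by
            funext i; exact h1_h2 _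
          rw [k3, ← k1] at k2
          rcases value_three (A := A) (N := N) ψ x y w l with h | h
          · rcases value_three (A := Fin 3) (N := N3) (fun i => h2 (ψ i)) x y w l with h' | h'
            · change value S6 _ _ = _ at h'
              rw [h, h']; simp
            · change value S6 _ _ = _ at h'
              rw [h, h'] at k2
              cases k2
          · rcases value_three (A := Fin 3) (N := N3) (fun i => h2 (ψ i)) x y w l with h' | h'
            · change value S6 _ _ = _ at h'
              rw [h, h'] at k2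
              cases k2
            · change value S6 _ _ = _ at h'
              rw [h, h']; simp
        refine ⟨fun x => h2 (ψ x), ?_⟩
        intro v hv he
        rw [(claim a b c l).2 hu] at he
        have hvz : value (T A N) ψ v ≠ TT.z := fun h => hψ v hv (hu.trans h.symm)
        obtain ⟨x, l'⟩ := v
        cases l' with
        | nil =>
          exact hvz ((h2_z _).1 he.symm)
        | cons y l' =>
          cases l' with
          | nil =>
            apply hvz
            have he' : (TT.z : TT (Fin 3) N3) = h2 (ψ x) * h2 (ψ y) := he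
            show ψ x * ψ y = TT.z
            revert he'
            generalize ψ x = p
            generalize ψ y = q
            intro he'
            change TT A N at p
            change TT A N at q
            cases p <;> cases q <;> simp [h2, at0_at0] at he' ⊢
          | cons w l' =>
            exact hvz ((claim x y w l').1 he.symm)

/-- The distinguishing inclusions: `x x z₀ z₁ ... z_n` against `x`, `x z₀` and `z_i z_j`, `i ≠ j`
(`x` is letter `0`, `z_i` is letter `i+1`, `0 ≤ i ≤ n`). -/
def U (n : ℕ) : Word := ⟨0, 0 :: 1 :: (List.range n).map (fun i => i + 2)⟩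

def VV (n : ℕ) : Set Word :=
  {w | w = ⟨0, []⟩ ∨ w = ⟨0, [1]⟩ ∨ ∃ i j : ℕ, i ≤ n ∧ j ≤ n ∧ i ≠ j ∧ w = ⟨i + 1, [j + 1]⟩}

/-- `K n`: the semigroup of the complete loopless graph on `n` vertices -/
@[reducible] noncomputable def K (n : ℕ) : Sgrp := T (Fin n) (fun i j => i ≠ j)

theorem foldl_e {A : Type} {N : A → A → Prop} (f : ℕ → TT A N) (l : List ℕ)
    (h : ∀ x ∈ l, f x = TT.e) : l.foldl (fun a b => a * f b) TT.e = TT.e := by
  induction l with
  | nil => rfl
  | cons b l ih =>
    rw [List.foldl_cons, h b (by simp), TT.e_e]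
    exact ih (fun x hx => h x (by simp [hx]))

theorem foldl_z {A : Type} {N : A → A → Prop} (f : ℕ → TT A N) (l : List ℕ) :
    l.foldl (fun a b => a * f b) TT.z = TT.z := by
  induction l with
  | nil => rfl
  | cons b l ih => rw [List.foldl_cons, TT.z_mul]; exact ih

/-- if the value of a word is `e` then all its letters have value `e` -/
theorem letters_e {A : Type} {N : A → A → Prop} (f : ℕ → TT A N) (l : List ℕ) (x : TT A N)
    (h : l.foldl (fun a b => a * f b) x = TT.e) : x = TT.e ∧ ∀ y ∈ l, f y = TT.e := by
  classical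
  induction l generalizing x with
  | nil => exact ⟨h, by simp⟩
  | cons b l ih =>
    rw [List.foldl_cons] at h
    obtain ⟨h1, h2⟩ := ih _ h
    have : x = TT.e ∧ f b = TT.e := by
      revert h1
      generalize f b = y
      intro h1
      cases x <;> cases y <;> simp at h1 ⊢
      rw [TT.vx_vx] at h1
      split_ifs at h1
    refine ⟨this.1, ?_⟩
    intro y hy
    rcases List.mem_cons.1 hy with rfl | hy
    · exact this.2
    · exact h2 y hy

theorem K_sat (n : ℕ) (hn : 1 ≤ n) : Sat (K n) (U n) (VV n) := by
  classical
  intro f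
  change ℕ → TT (Fin n) (fun i j => i ≠ j) at f
  by_contra hcon
  push Not at hcon
  rcases value_three (A := Fin n) (N := fun i j => i ≠ j) f 0 0 1
      ((List.range n).map (fun i => i + 2)) with hu | hu
  · -- value of u is e; then f 0 = e
    change value (K n) f (U n) = TT.e at hu
    have h0 : f 0 = TT.e := (letters_e f (0 :: 1 :: (List.range n).map (fun i => i + 2)) (f 0) hu).1
    exact hcon ⟨0, []⟩ (Or.inl rfl) (hu.trans h0.symm)
  · change value (K n) f (U n) = TT.z at hu
    have hx : f 0 ≠ TT.z := fun h => hcon ⟨0, []⟩ (Or.inl rfl) (hu.trans h.symm)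
    have hx1 : f 0 * f 1 ≠ TT.z := fun h => hcon ⟨0, [1]⟩ (Or.inr (Or.inl rfl)) (hu.trans h.symm)
    have hzz : ∀ i j : ℕ, i ≤ n → j ≤ n → i ≠ j → f (i + 1) * f (j + 1) ≠ TT.z :=
      fun i j hi hj hij h =>
        hcon ⟨i + 1, [j + 1]⟩ (Or.inr (Or.inr ⟨i, j, hi, hj, hij, rfl⟩)) (hu.trans h.symm)
    -- products nonzero
    have key : ∀ p q : TT (Fin n) (fun i j => i ≠ j), p * q ≠ TT.z →
        (p = TT.e ∧ q = TT.e) ∨ ∃ a b, p = TT.vx a ∧ q = TT.vx b ∧ a ≠ b := by
      intro p q hpq
      cases p <;> cases q <;> simp at hpq ⊢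
      rename_i a b
      rw [TT.vx_vx] at hpq
      intro hab
      apply hpq
      rw [if_neg (by simpa using hab)]
    by_cases he : f 1 = TT.e
    · -- all letters e
      have h0 : f 0 = TT.e := by
        rcases key _ _ hx1 with h | ⟨a, b, -, h, -⟩
        · exact h.1
        · rw [he] at h; cases h
      have hall : ∀ j, j ≤ n → f (j + 1) = TT.e := by
        intro j hj
        rcases Nat.eq_zero_or_pos j with rfl | hj0
        · exact he
        · rcases key _ _ (hzz 0 j (by omega) hj (by omega)) with h | ⟨a, b, h, -, -⟩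
          · exact h.2
          · rw [zero_add, he] at h; cases h
      have : value (K n) f (U n) = TT.e := by
        show List.foldl (fun a b => a * f b) (f 0) (0 :: 1 :: (List.range n).map (fun i => i + 2))
          = TT.e
        rw [h0]
        apply foldl_e
        intro x hx
        simp only [List.mem_cons, List.mem_map, List.mem_range] at hx
        rcases hx with rfl | rfl | ⟨i, hi, rfl⟩
        · exact h0
        · exact he
        · exact hall (i + 1) (by omega)
      rw [this] at hu; cases hu
    · -- all z_i are `vx a_i`, distinct: pigeonhole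
      have hat : ∀ j : Fin (n + 1), ∃ a : Fin n, f (j.val + 1) = TT.vx a := by
        intro j
        by_cases hj0 : j.val = 0
        · rcases key _ _ (hzz 0 1 (by omega) hn (by omega)) with h | ⟨a, b, h, -, -⟩
          · exact absurd h.1 he
          · exact ⟨a, by rw [hj0]; exact h⟩
        · rcases key _ _ (hzz 0 j.val (by omega) (by omega) (by omega)) with h | ⟨a, b, -, h, -⟩
          · exact absurd h.1 he
          · exact ⟨b, h⟩
      choose a ha using hat
      obtain ⟨i, j, hij, haij⟩ := Fintype.exists_ne_map_eq_of_card_lt a (by simp)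
      have hij' : i.val ≠ j.val := fun h => hij (Fin.ext h)
      rcases key _ _ (hzz i.val j.val (by omega) (by omega) hij') with h | ⟨p, q, h1, h2, h3⟩
      · rw [ha i] at h; cases h.1
      · rw [ha i] at h1; rw [ha j] at h2
        injection h1 with h1; injection h2 with h2
        exact h3 (by rw [← h1, ← h2, haij])

theorem K_not_sat (n m : ℕ) (hn : 1 ≤ n) (hm : n + 1 ≤ m) : ¬ Sat (K m) (U n) (VV n) := by
  classical
  intro h
  -- x = vx 1, z_i = vx i
  let f : ℕ → TT (Fin m) (fun i j => i ≠ j) := fun k =>
    if k = 0 then TT.vx ⟨1, by omega⟩ else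
      if hk : k - 1 < m then TT.vx ⟨k - 1, hk⟩ else TT.z
  have f0 : f 0 = TT.vx ⟨1, by omega⟩ := if_pos rfl
  have fs : ∀ i (hi : i < m), f (i + 1) = TT.vx ⟨i, hi⟩ := by
    intro i hi
    show (if i + 1 = 0 then TT.vx ⟨1, by omega⟩ else
      if hk : i + 1 - 1 < m then TT.vx ⟨i + 1 - 1, hk⟩ else TT.z : TT (Fin m) (fun i j => i ≠ j)) = _
    rw [if_neg (by omega), dif_pos (by omega)]
    simp
  obtain ⟨v, hv, he⟩ := h f
  have hu : value (K m) f (U n) = TT.z := by
    rcases value_three (A := Fin m) (N := fun i j => i ≠ j) f 0 0 1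
      ((List.range n).map (fun i => i + 2)) with hu | hu
    · exfalso
      have h0 : f 0 = TT.e :=
        (letters_e f (0 :: 1 :: (List.range n).map (fun i => i + 2)) (f 0) hu).1
      rw [f0] at h0; cases h0
    · exact hu
  rw [hu] at he
  rcases hv with rfl | rfl | ⟨i, j, hi, hj, hij, rfl⟩
  · have he' : TT.z = f 0 := he
    rw [f0] at he'; cases he'
  · have he' : TT.z = f 0 * f 1 := he
    rw [f0, fs 0 (by omega), TT.vx_vx, if_pos (by simp)] at he'
    cases he'
  · have he' : TT.z = f (i + 1) * f (j + 1) := he
    rw [fs i (by omega), fs j (by omega), TT.vx_vx, if_pos (by simpa using hij)] at he'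
    cases he'

theorem infinite : (Subvarieties S6).Infinite := by
  apply Set.infinite_of_injective_forall_mem (f := fun n : ℕ => Generated (K (n + 1)))
  · -- injective
    have key : ∀ n m : ℕ, n < m → Generated (K (n + 1)) ≠ Generated (K (m + 1)) := by
      intro n m hnm heq
      have h1 : K (m + 1) ∈ Generated (K (n + 1)) := by
        rw [heq]; exact fun u V h => h
      exact K_not_sat (n + 1) (m + 1) (by omega) (by omega) (h1 _ _ (K_sat (n + 1) (by omega)))
    intro n m hnm
    rcases lt_trichotomy n m with h | h | h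
    · exact absurd hnm (key n m h)
    · exact h
    · exact absurd hnm.symm (key m n h)
  · intro n
    refine ⟨generated_isInclusiveVariety _, ?_⟩
    intro X hX u V hS
    exact hX u V (T_mem _ _ u V hS)

theorem finite_S6 : Finite S6.carrier := by
  have : Function.Surjective (fun x : Fin 3 ⊕ Fin 3 => match x with
    | Sum.inl a => (TT.vx a : TT (Fin 3) N3)
    | Sum.inr 0 => TT.c
    | Sum.inr 1 => TT.e
    | Sum.inr 2 => TT.z) := by
    intro x
    cases x with
    | vx a => exact ⟨Sum.inl a, rfl⟩
    | c => exact ⟨Sum.inr 0, rfl⟩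
    | e => exact ⟨Sum.inr 1, rfl⟩
    | z => exact ⟨Sum.inr 2, rfl⟩
  exact Finite.of_surjective _ this

theorem card_S6 : Nat.card S6.carrier = 6 := by
  have e : (Fin 3 ⊕ Fin 3) ≃ TT (Fin 3) N3 :=
    { toFun := fun x => match x with
        | Sum.inl a => (TT.vx a : TT (Fin 3) N3)
        | Sum.inr 0 => TT.c
        | Sum.inr 1 => TT.e
        | Sum.inr 2 => TT.z
      invFun := fun x => match x with
        | TT.vx a => Sum.inl a
        | TT.c => Sum.inr 0
        | TT.e => Sum.inr 1
        | TT.z => Sum.inr 2
      left_inv := by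
        rintro (a | a)
        · rfl
        · fin_cases a <;> rfl
      right_inv := by
        intro x; cases x <;> rfl }
  show Nat.card (TT (Fin 3) N3) = 6
  rw [← Nat.card_congr e]; simp

theorem not_nil : ¬ IsNil S6 := by
  rintro ⟨z, hz, hnil⟩
  change TT (Fin 3) N3 at z
  have hz0 : z = TT.z := by
    have h1 : z * TT.z = z := (hz TT.z).1
    rw [TT.mul_z] at h1; exact h1.symm
  obtain ⟨n, hn⟩ := hnil (TT.e : TT (Fin 3) N3)
  have h2 : value S6 (fun _ => (TT.e : TT (Fin 3) N3)) ⟨0, List.replicate n 0⟩ = TT.e :=
    foldl_e (fun _ => TT.e) (List.replicate n 0) (fun _ _ => rfl)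
  rw [h2, hz0] at hn
  cases hn

/-- **Theorem.** There is a finite semigroup (with six elements, not a nilsemigroup) whose
inclusive variety has infinitely many inclusive subvarieties. -/
theorem result : ∃ S : Sgrp, Finite S.carrier ∧ Nat.card S.carrier = 6 ∧ ¬ IsNil S ∧
    (Subvarieties S).Infinite :=
  ⟨S6, finite_S6, card_S6, not_nil, infinite⟩

end Pool.Agent.Results.MP_ea093d_al.InfiniteLattice
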